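import Pool.Agent.Lib.MP_8317a8_co.FD.Ori

set_option autoImplicit false

/-!
# The potential

`cc s d = C(s+1-d, 2)` as a sum over thresholds, `gg s p = ∑_{j < p} cc s j`.
-/

namespace KalaiRank

open Finset

namespace FD

/-- The weight of an outdegree. -/
def cc (s d : ℕ) : ℕ := ∑ m ∈ Icc 1 s, if d < m then s + 1 - m else 0

/-- The weight of a class with `p` elements. -/
def gg (s p : ℕ) : ℕ := ∑ j ∈ range p, cc s j

theorem cc_succ (s d : ℕ) : cc s d = cc s (d + 1) + (s - d) := by
  unfold cc
  have h1 : ∀ m ∈ Icc 1 s, (if d < m then s + 1 - m else 0) =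
      (if d + 1 < m then s + 1 - m else 0) + (if m = d + 1 then s - d else 0) := by
    intro m _
    split_ifs <;> omega
  rw [sum_congr rfl h1, sum_add_distrib, sum_ite_eq']
  congr 1
  split_ifs with h
  · rfl
  · rw [mem_Icc] at h
    omega

theorem gg_succ (s p : ℕ) : gg s (p + 1) = gg s p + cc s p := sum_range_succ _ _

theorem sum_sub_add_cc (s d : ℕ) : (∑ j ∈ range d, (s - j)) + cc s d = cc s 0 := by
  induction d with
  | zero => simp
  | succ d ih =>
    rw [sum_range_succ, ← ih, cc_succ s d]
    ring

theorem two_cc_zero (s : ℕ) : 2 * cc s 0 = s * (s + 1) := by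
  have h1 : ∀ d, cc s (s + d) = 0 := by
    intro d
    unfold cc
    refine sum_eq_zero fun m hm => ?_
    rw [mem_Icc] at hm
    rw [if_neg (by omega)]
  have h2 := sum_sub_add_cc s s
  have h3 := h1 0
  rw [add_zero] at h3
  rw [h3, add_zero] at h2
  rw [← h2, ← sum_range_reflect]
  have h4 : ∑ j ∈ range s, (s - (s - 1 - j)) = ∑ j ∈ range s, (j + 1) := by
    refine sum_congr rfl fun j hj => ?_
    rw [mem_range] at hj
    omega
  rw [h4, sum_add_distrib, sum_const, card_range, smul_eq_mul, mul_one, mul_add, mul_comm 2,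
    sum_range_id_mul_two]
  rcases s with _ | s
  · rfl
  · rw [Nat.add_sub_cancel]
    ring

theorem gg_eq (s p : ℕ) : gg s p = ∑ m ∈ Icc 1 s, (s + 1 - m) * min p m := by
  induction p with
  | zero => simp [gg]
  | succ p ih =>
    rw [gg_succ, ih]
    unfold cc
    rw [← sum_add_distrib]
    refine sum_congr rfl fun m _ => ?_
    split_ifs with h
    · have h1 : min (p + 1) m = min p m + 1 := by omega
      rw [h1]
      ring
    · have h1 : min (p + 1) m = min p m := by omega
      rw [h1, add_zero]

/-- The potential of a vertex set. -/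
def pot {V : Type*} (s : ℕ) (c : V → Fin 3) (r : V → V → Prop) [DecidableRel r] (U : Finset V) :
    ℕ :=
  ∑ v ∈ U, cc s (out r U v) + ∑ i : Fin 3, gg s (U.filter (fun v => c v = i)).card

theorem pot_ge {V : Type*} [DecidableEq V] {c : V → Fin 3} {r : V → V → Prop} [DecidableRel r]
    (h : Ori c r) (s : ℕ) (U : Finset V) (hU : 3 * s ≤ U.card) : 3 * gg s s ≤ pot s c r U := by
  unfold pot
  have e1 : ∑ v ∈ U, cc s (out r U v) =
      ∑ m ∈ Icc 1 s, (s + 1 - m) * (U.filter (fun v => out r U v < m)).card := by
    unfold cc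
    rw [sum_comm]
    refine sum_congr rfl fun m _ => ?_
    rw [← sum_filter, sum_const, smul_eq_mul, mul_comm]
  have e2 : ∑ i : Fin 3, gg s (U.filter (fun v => c v = i)).card =
      ∑ m ∈ Icc 1 s, (s + 1 - m) * ∑ i : Fin 3, min (U.filter (fun v => c v = i)).card m := by
    rw [sum_congr rfl (fun i _ => gg_eq s _), sum_comm]
    refine sum_congr rfl fun m _ => ?_
    rw [mul_sum]
  rw [e1, e2, ← sum_add_distrib, gg_eq, mul_sum]
  refine sum_le_sum fun m hm => ?_
  rw [mem_Icc] at hm
  have h1 := count h U m (by omega)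
  rw [min_eq_right hm.2, ← mul_add]
  calc 3 * ((s + 1 - m) * m) = (s + 1 - m) * (3 * m) := by ring
    _ ≤ _ := Nat.mul_le_mul_left _ h1

/-- Three times the weight of a class with `s` elements. -/
theorem gg_self (s : ℕ) : 6 * gg s s = s * (s + 1) * (s + 2) := by
  have key : ∀ d, d ≤ s → 6 * ∑ j ∈ Ico d s, cc s j = (s - d) * (s - d + 1) * (s - d + 2) := by
    intro d hd
    obtain ⟨e, he⟩ : ∃ e, e = s - d := ⟨_, rfl⟩
    have hcc : ∀ e, e ≤ s → 2 * cc s (s - e) = e * (e + 1) := by
      intro e
      induction e with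
      | zero =>
        intro _
        rw [Nat.sub_zero]
        have h0 : cc s s = 0 := by
          unfold cc
          refine sum_eq_zero fun m hm => ?_
          rw [mem_Icc] at hm
          rw [if_neg (by omega)]
        rw [h0]
      | succ e ih =>
        intro he
        have h1 := ih (by omega)
        rw [cc_succ s (s - (e + 1))]
        have h2 : s - (e + 1) + 1 = s - e := by omega
        have h3 : s - (s - (e + 1)) = e + 1 := by omega
        rw [h2, h3, mul_add, h1]
        ring
    rw [← he]
    have hd' : d = s - e := by omega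
    have hes : e ≤ s := by omega
    clear he hd
    subst hd'
    induction e with
    | zero => simp
    | succ e ih =>
      have h1 := ih (by omega)
      have h2 : Ico (s - (e + 1)) s = insert (s - (e + 1)) (Ico (s - e) s) := by
        ext j
        rw [mem_Ico, mem_insert, mem_Ico]
        omega
      rw [h2, sum_insert (by rw [mem_Ico]; omega), mul_add, h1]
      have h3 := hcc (e + 1) (by omega)
      have h4 : 6 * cc s (s - (e + 1)) = 3 * ((e + 1) * (e + 1 + 1)) := by
        rw [← h3]
        ring
      rw [h4]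
      ring
  have h1 := key 0 (Nat.zero_le s)
  rw [Nat.sub_zero] at h1
  unfold gg
  rw [range_eq_Ico]
  exact h1

end FD

end KalaiRank
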