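import Pool.Agent.Lib.MP_8317a8_co.RankMat
import Pool.Agent.Lib.MP_8317a8_co.Bd
import Pool.Agent.Lib.MP_8317a8_co.FD.Weights

set_option autoImplicit false

/-!
# The kernel bound for Fon-Der-Flaass 3-graphs of tripartite orientations

`finrank (YSp G x U) + pot s c r U ≤ s (s + 1) |U|`, by deleting the vertices one at a time.
-/

namespace KalaiRank

open Finset Module

/-- `G` contains the Fon-Der-Flaass 3-graph of `r`: all triples inside a class, and all triples in
which one vertex dominates the two others. -/
structure HasFDF {V κ : Type*} [DecidableEq V] (G : Finset (Finset V)) (c : V → κ)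
    (r : V → V → Prop) : Prop where
  mono : ∀ a b d, a ≠ b → a ≠ d → b ≠ d → c a = c b → c a = c d → Tri G a b d
  cone : ∀ a b d, b ≠ d → r a b → r a d → Tri G a b d

namespace FD

section alg

variable {K : Type*} [Field K] {V : Type*} [DecidableEq V] [Fintype V] {s : ℕ}

/-- The vectors orthogonal to the `x a`, `a ∈ N`. -/
def ann (x : V → Fin s → K) (N : Finset V) : Submodule K (Fin s → K) where
  carrier := {v | ∀ a ∈ N, x a ⬝ᵥ v = 0}
  add_mem' := fun {u v} hu hv a ha => by
    rw [dotProduct_add, hu a ha, hv a ha, add_zero]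
  zero_mem' := fun a _ => dotProduct_zero _
  smul_mem' := fun k v hv a ha => by
    rw [dotProduct_smul, hv a ha, smul_zero]

theorem finrank_ann_le {x : V → Fin s → K} (hx : GenPos x) (hV : s ≤ Fintype.card V)
    (N : Finset V) : finrank K (ann x N) ≤ s - N.card := by
  rcases le_or_gt s N.card with h | h
  · have h0 : ann x N = ⊥ := by
      rw [eq_bot_iff]
      intro v hv
      rw [Submodule.mem_bot]
      exact hx.eq_zero N h v hv
    rw [h0, finrank_bot]
    exact Nat.zero_le _
  · obtain ⟨N', hN', hc⟩ := exists_superset_card_eq h.le hV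
    let φ : ann x N →ₗ[K] ((N' \ N : Finset V) → K) :=
      { toFun := fun v a => x a.1 ⬝ᵥ v.1
        map_add' := fun u v => by
          funext a
          exact dotProduct_add _ _ _
        map_smul' := fun k v => by
          funext a
          exact dotProduct_smul _ _ _ }
    have hinj : Function.Injective φ := by
      rw [injective_iff_map_eq_zero]
      intro v hv
      apply Subtype.ext
      refine hx.eq_zero N' hc.ge v.1 fun a ha => ?_
      by_cases haN : a ∈ N
      · exact v.2 a haN
      · exact congrFun hv ⟨a, mem_sdiff.2 ⟨ha, haN⟩⟩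
    have h1 := LinearMap.finrank_le_finrank_of_injective hinj
    rw [Module.finrank_fintype_fun_eq_card, Fintype.card_coe, card_sdiff_of_subset hN', hc] at h1
    exact h1

theorem Sol_insert_greedy {x : V → Fin s → K} (hx : GenPos x) (hV : s ≤ Fintype.card V)
    (G : Finset (Finset V)) (w : V) (A N : Finset V) (t : V) (hN : N ⊆ A)
    (hT : ∀ a ∈ N, a ≠ t ∧ Tri G w t a) :
    finrank K (Sol G x w (insert t A)) ≤ finrank K (Sol G x w A) + (s - N.card) := by
  have h1 := Sol_insert_le G x w A t (ann x N) (fun v hv a ha =>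
    hv a (hN ha) (hT a ha).1 (hT a ha).2)
  have h2 := finrank_ann_le hx hV N
  omega

theorem Sol_clique {x : V → Fin s → K} (hx : GenPos x) (hV : s ≤ Fintype.card V)
    (G : Finset (Finset V)) (w : V) (T : Finset V)
    (hT : ∀ a ∈ T, ∀ b ∈ T, a ≠ b → Tri G w a b) :
    finrank K (Sol G x w T) + cc s T.card ≤ cc s 0 := by
  rw [← sum_sub_add_cc s T.card]
  refine Nat.add_le_add_right ?_ _
  induction T using Finset.induction_on with
  | empty =>
    have := finrank_Sol_le_card G x w (∅ : Finset V)
    rw [card_empty, Nat.mul_zero] at this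
    exact this.trans (Nat.zero_le _)
  | insert t T ht ih =>
    have h1 := Sol_insert_greedy hx hV G w T T t Subset.rfl (fun a ha =>
      ⟨fun h => ht (h ▸ ha), hT t (mem_insert_self t T) a (mem_insert_of_mem ha)
        (fun h => ht (h ▸ ha))⟩)
    have h2 := ih (fun a ha b hb hab => hT a (mem_insert_of_mem ha) b (mem_insert_of_mem hb) hab)
    rw [card_insert_of_notMem ht, sum_range_succ]
    omega

theorem Sol_bound {x : V → Fin s → K} (hx : GenPos x) (hV : s ≤ Fintype.card V)
    {G : Finset (Finset V)} {c : V → Fin 3} {r : V → V → Prop} [DecidableRel r] (h : Ori c r)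
    (hG : HasFDF G c r) {U : Finset V} {v : V} (hv : v ∉ U) :
    finrank K (Sol G x v U) + cc s (out r U v) + cc s (U.filter (fun a => c a = c v)).card ≤
      2 * cc s 0 + ∑ a ∈ U.filter (fun a => r a v), (s - out r U a) := by
  obtain ⟨D, hD⟩ : ∃ D, D = U.filter (r v) := ⟨_, rfl⟩
  obtain ⟨P, hP⟩ : ∃ P, P = U.filter (fun a => c a = c v) := ⟨_, rfl⟩
  obtain ⟨A, hA⟩ : ∃ A, A = U.filter (fun a => r a v) := ⟨_, rfl⟩
  have mD : ∀ a, a ∈ D ↔ a ∈ U ∧ r v a := fun a => by rw [hD, mem_filter]
  have mP : ∀ a, a ∈ P ↔ a ∈ U ∧ c a = c v := fun a => by rw [hP, mem_filter]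
  have mA : ∀ a, a ∈ A ↔ a ∈ U ∧ r a v := fun a => by rw [hA, mem_filter]
  have hne : ∀ a ∈ U, v ≠ a := fun a ha h => hv (h ▸ ha)
  rw [← hP, ← hA]
  have h1 := Sol_clique hx hV G v D (fun a ha b hb hab => by
    rw [mD] at ha hb
    exact hG.cone v a b hab ha.2 hb.2)
  have h2 := Sol_clique hx hV G v P (fun a ha b hb hab => by
    rw [mP] at ha hb
    exact hG.mono v a b (hne a ha.1) (hne b hb.1) hab ha.2.symm hb.2.symm)
  have h3 := finrank_Sol_union_le (K := K) G x v D P
  have h4 : out r U v = D.card := by rw [hD]; rfl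
  obtain ⟨i, j, hij⟩ : ∃ i j : Fin 3, ∀ y, y ≠ c v → y = i ∨ y = j := by
    generalize c v = z
    revert z
    decide
  have key : ∀ n : ℕ, ∀ A' : Finset V, A'.card = n → A' ⊆ A →
      (∀ a ∈ A', ∀ b ∈ A, r a b → b ∈ A') →
      finrank K (Sol G x v ((D ∪ P) ∪ A')) ≤ finrank K (Sol G x v (D ∪ P)) +
        ∑ a ∈ A', (s - out r U a) := by
    intro n
    induction n with
    | zero =>
      intro A' hA' _ _
      rw [card_eq_zero] at hA'
      subst hA'
      rw [union_empty, sum_empty, add_zero]
    | succ n ih =>
      intro A' hA' hsub hcl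
      have hne' : A'.Nonempty := by
        rw [← card_pos]
        omega
      obtain ⟨a, ha, hsrc⟩ := exists_source h hne' (i := i) (j := j) (fun w hw =>
        hij (c w) (h.ne _ _ ((mA w).1 (hsub hw)).2))
      have haA := (mA a).1 (hsub ha)
      have h5 := ih (A'.erase a) (by rw [card_erase_of_mem ha, hA']; rfl)
        ((erase_subset _ _).trans hsub) (by
          intro a2 ha2 b hb hab
          rw [mem_erase] at ha2 ⊢
          refine ⟨?_, hcl a2 ha2.2 b hb hab⟩
          rintro rfl
          exact hsrc a2 ha2.2 hab)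
      have h6 := Sol_insert_greedy hx hV G v ((D ∪ P) ∪ A'.erase a) (U.filter (r a)) a (by
          intro b hb
          rw [mem_filter] at hb
          rw [mem_union, mem_union, mD, mP, mem_erase]
          by_cases h7 : c b = c v
          · exact Or.inl (Or.inr ⟨hb.1, h7⟩)
          · rcases h.tot b v h7 with h8 | h8
            · refine Or.inr ⟨?_, hcl a ha b ((mA b).2 ⟨hb.1, h8⟩) hb.2⟩
              rintro rfl
              exact h.ne _ _ hb.2 rfl
            · exact Or.inl (Or.inl ⟨hb.1, h8⟩)) (by
          intro b hb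
          rw [mem_filter] at hb
          refine ⟨?_, (hG.cone a v b (hne b hb.1) haA.2 hb.2).swap12⟩
          rintro rfl
          exact h.ne _ _ hb.2 rfl)
      have h7 : insert a ((D ∪ P) ∪ A'.erase a) = (D ∪ P) ∪ A' := by
        rw [← union_insert, insert_erase ha]
      rw [h7] at h6
      have h8 := add_sum_erase A' (fun a => s - out r U a) ha
      have h9 : out r U a = (U.filter (r a)).card := rfl
      omega
  have h5 := key A.card A rfl Subset.rfl (fun a _ b hb _ => hb)
  have h6 : (D ∪ P) ∪ A = U := by
    ext b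
    rw [mem_union, mem_union, mD, mP, mA]
    constructor
    · rintro ((h7 | h7) | h7) <;> exact h7.1
    · intro hb
      by_cases h7 : c b = c v
      · exact Or.inl (Or.inr ⟨hb, h7⟩)
      · rcases h.tot b v h7 with h8 | h8
        · exact Or.inr ⟨hb, h8⟩
        · exact Or.inl (Or.inl ⟨hb, h8⟩)
  rw [h6] at h5
  rw [h4]
  omega

omit [Fintype V] in
theorem pot_insert {c : V → Fin 3} {r : V → V → Prop} [DecidableRel r] (h : Ori c r)
    {U : Finset V} {v : V} (hv : v ∉ U) :
    pot s c r (insert v U) + ∑ a ∈ U.filter (fun a => r a v), (s - out r U a) =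
      pot s c r U + cc s (out r U v) + cc s (U.filter (fun a => c a = c v)).card := by
  have hirr : ∀ a, ¬ r a a := fun a ha => h.ne _ _ ha rfl
  have h1 : out r (insert v U) v = out r U v := by
    unfold out
    rw [filter_insert, if_neg (hirr v)]
  have h2 : ∀ a ∈ U, cc s (out r (insert v U) a) + (if r a v then s - out r U a else 0) =
      cc s (out r U a) := by
    intro a _
    unfold out
    rw [filter_insert]
    split_ifs with h3
    · rw [card_insert_of_notMem (fun h4 => hv (mem_filter.1 h4).1)]
      exact (cc_succ s _).symm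
    · rw [add_zero]
  have h3 : ∑ i : Fin 3, gg s ((insert v U).filter (fun a => c a = i)).card =
      ∑ i : Fin 3, gg s (U.filter (fun a => c a = i)).card +
        cc s (U.filter (fun a => c a = c v)).card := by
    have h4 : ∀ i : Fin 3, gg s ((insert v U).filter (fun a => c a = i)).card =
        gg s (U.filter (fun a => c a = i)).card +
          (if i = c v then cc s (U.filter (fun a => c a = c v)).card else 0) := by
      intro i
      rw [filter_insert]
      by_cases h5 : c v = i
      · subst h5
        rw [if_pos rfl, if_pos rfl, card_insert_of_notMem (fun h4 => hv (mem_filter.1 h4).1),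
          gg_succ]
      · rw [if_neg h5, if_neg (fun h6 => h5 h6.symm), add_zero]
    rw [sum_congr rfl (fun i _ => h4 i), sum_add_distrib, sum_ite_eq' univ (c v),
      if_pos (mem_univ _)]
  unfold pot
  rw [sum_insert hv, h1, h3, sum_filter, ← sum_congr rfl h2, sum_add_distrib]
  ring

theorem YSp_bound {x : V → Fin s → K} (hx : GenPos x) (hV : s ≤ Fintype.card V)
    {G : Finset (Finset V)} {c : V → Fin 3} {r : V → V → Prop} [DecidableRel r] (h : Ori c r)
    (hG : HasFDF G c r) (U : Finset V) :
    finrank K (YSp G x U) + pot s c r U ≤ s * (s + 1) * U.card := by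
  induction U using Finset.induction_on with
  | empty =>
    rw [finrank_YSp_empty]
    unfold pot
    simp [gg]
  | insert v U hv ih =>
    have h1 := finrank_YSp_insert_le G x U v hv
    have h2 := Sol_bound hx hV h hG hv
    have h3 := pot_insert (s := s) h hv
    have h4 := two_cc_zero s
    rw [card_insert_of_notMem hv, mul_add, mul_one]
    omega

end alg

end FD

end KalaiRank
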