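import Pool.Agent.Lib.MP_8317a8_co.FD.Bound

set_option autoImplicit false

/-!
# Kalai's inequality for Fon-Der-Flaass 3-graphs of tripartite orientations
-/

namespace KalaiRank

open Finset Module

namespace FD

theorem two_choose (m : ℕ) : 2 * (m.choose 2 : ℤ) = (m : ℤ) * (m - 1) := by
  have h := Nat.choose_two_right m
  obtain ⟨k, hk⟩ := (Nat.even_mul_pred_self m).two_dvd
  rw [hk] at h
  have h3 : m.choose 2 = k := by omega
  rw [h3]
  cases m with
  | zero =>
    simp at hk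
    simp [hk]
  | succ m =>
    rw [Nat.add_sub_cancel] at hk
    have h5 : (((m + 1) * m : ℕ) : ℤ) = ((2 * k : ℕ) : ℤ) := by rw [hk]
    push_cast at h5 ⊢
    linarith

theorem sum_formula (n : ℕ) : ∀ s : ℕ, 2 * s ≤ n →
    2 * (∑ i ∈ Finset.Icc 1 s, (((n - 2 * i).choose 2 : ℤ) - (i.choose 2 : ℤ))) =
      2 * s * (n.choose 2 : ℤ) - 2 * s * (s + 1) * n + s * (s + 1) * (s + 2) := by
  intro s
  induction s with
  | zero =>
    intro _
    simp
  | succ s ih =>
    intro h
    have h1 := ih (by omega)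
    rw [Finset.sum_Icc_succ_top (by omega), mul_add, h1, mul_sub]
    have h2 := two_choose (n - 2 * (s + 1))
    have h3 := two_choose (s + 1)
    have h4 := two_choose n
    rw [Nat.cast_sub h] at h2
    rw [h2, h3]
    push_cast
    linear_combination -h4

/-- The 3-graphs of the family satisfy the hypothesis of the problem. -/
theorem covers4 {V : Type*} [DecidableEq V] {G : Finset (Finset V)} {c : V → Fin 3}
    {r : V → V → Prop} (h : Ori c r) (hG : HasFDF G c r) (S : Finset V) (hS : S.card = 4) :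
    ∃ e ∈ G, e ⊆ S := by
  obtain ⟨a, ha, a', ha', hne, hc⟩ : ∃ a ∈ S, ∃ a' ∈ S, a ≠ a' ∧ c a = c a' := by
    apply Finset.exists_ne_map_eq_of_card_lt_of_maps_to (t := (univ : Finset (Fin 3)))
    · rw [hS, card_univ, Fintype.card_fin]
      norm_num
    · intro a _
      exact mem_univ _
  obtain ⟨b, b', hbb, hbS⟩ : ∃ b b', b ≠ b' ∧ (S.erase a).erase a' = {b, b'} := by
    rw [← card_eq_two, card_erase_of_mem (mem_erase.2 ⟨hne.symm, ha'⟩), card_erase_of_mem ha, hS]
  have hb : b ∈ (S.erase a).erase a' := by rw [hbS]; simp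
  have hb' : b' ∈ (S.erase a).erase a' := by rw [hbS]; simp
  rw [mem_erase, mem_erase] at hb hb'
  have hsub : ∀ x y z : V, x ∈ S → y ∈ S → z ∈ S → Tri G x y z → ∃ e ∈ G, e ⊆ S := by
    intro x y z hx hy hz ht
    refine ⟨{x, y, z}, ht, ?_⟩
    intro w hw
    rw [mem_insert, mem_insert, mem_singleton] at hw
    rcases hw with rfl | rfl | rfl
    · exact hx
    · exact hy
    · exact hz
  by_cases h1 : c a = c b
  · exact hsub a a' b ha ha' hb.2.2 (hG.mono a a' b hne hb.2.1.symm hb.1.symm hc h1)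
  by_cases h2 : c a = c b'
  · exact hsub a a' b' ha ha' hb'.2.2 (hG.mono a a' b' hne hb'.2.1.symm hb'.1.symm hc h2)
  by_contra hcon
  have key : ∀ x y z, x ∈ S → y ∈ S → z ∈ S → y ≠ z → r x y → ¬ r x z := fun x y z hx hy hz hyz h5 h6 =>
    hcon (hsub x y z hx hy hz (hG.cone x y z hyz h5 h6))
  have h1' : c a' ≠ c b := by rw [← hc]; exact h1
  have h2' : c a' ≠ c b' := by rw [← hc]; exact h2
  rcases h.tot a b h1 with h3 | h3
  · have h4 := (h.tot a b' h2).resolve_left (key a b b' ha hb.2.2 hb'.2.2 hbb h3)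
    have h5 := (h.tot a' b' h2').resolve_right (key b' a a' hb'.2.2 ha ha' hne h4)
    have h6 := (h.tot a' b h1').resolve_left (key a' b' b ha' hb'.2.2 hb.2.2 hbb.symm h5)
    by_cases h7 : c b = c b'
    · exact h.c4 a a' b b' hc h7 h3 h6 h5 h4
    · rcases h.tot b b' h7 with h8 | h8
      · exact key b a' b' hb.2.2 ha' hb'.2.2 hb'.1.symm h6 h8
      · exact key b' a b hb'.2.2 ha hb.2.2 hb.2.1.symm h4 h8
  · have h4 := (h.tot a' b h1').resolve_right (key b a a' hb.2.2 ha ha' hne h3)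
    have h5 := (h.tot a' b' h2').resolve_left (key a' b b' ha' hb.2.2 hb'.2.2 hbb h4)
    have h6 := (h.tot a b' h2).resolve_right (key b' a' a hb'.2.2 ha' ha hne.symm h5)
    by_cases h7 : c b = c b'
    · exact h.c4 a a' b' b hc h7.symm h6 h5 h4 h3
    · rcases h.tot b b' h7 with h8 | h8
      · exact key b a b' hb.2.2 ha hb'.2.2 hb'.2.1.symm h3 h8
      · exact key b' a' b hb'.2.2 ha' hb.2.2 hb.1.symm h5 h8

theorem rank_bound {n s : ℕ} (hn : 3 * s ≤ n) {G : Finset (Finset (Fin n))} {c : Fin n → Fin 3}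
    {r : Fin n → Fin n → Prop} (h : Ori c r) (hG : HasFDF G c r) :
    (∑ i ∈ Finset.Icc 1 s, (((n - 2 * i).choose 2 : ℤ) - (i.choose 2 : ℤ))) ≤
      (((kmat n s G).rank : ℕ) : ℤ) := by
  classical
  have hV : s ≤ Fintype.card (Fin n) := by
    rw [Fintype.card_fin]
    omega
  have h1 := YSp_bound (genPos_generic n s) hV h hG Finset.univ
  have h2 := rank_kmat n s G
  have h3 := pot_ge h s Finset.univ (by rw [card_univ, Fintype.card_fin]; exact hn)
  have h4 := gg_self s
  have h5 := sum_formula n s (by omega)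
  rw [card_univ, Fintype.card_fin] at h1
  obtain ⟨Y, hY⟩ : ∃ Y, Y = finrank (KK n s) (YSp G (gx n s) Finset.univ) := ⟨_, rfl⟩
  have h1' : Y + pot s c r Finset.univ ≤ s * (s + 1) * n := by rw [hY]; exact h1
  rw [← hY] at h2
  have h6 : (2 : ℤ) * Y + s * (s + 1) * (s + 2) ≤ 2 * (s * (s + 1) * n) := by
    have h7 : 2 * Y + s * (s + 1) * (s + 2) ≤ 2 * (s * (s + 1) * n) := by
      rw [← h4]
      omega
    exact_mod_cast h7
  have h8 : (s : ℤ) * (n.choose 2 : ℤ) ≤ ((kmat n s G).rank : ℤ) + Y := by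
    exact_mod_cast h2
  have h9 : 2 * (∑ i ∈ Finset.Icc 1 s, (((n - 2 * i).choose 2 : ℤ) - (i.choose 2 : ℤ))) ≤
      2 * (((kmat n s G).rank : ℕ) : ℤ) := by
    rw [h5]
    linarith
  linarith

end FD

end KalaiRank
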