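import Mathlib

set_option autoImplicit false

/-!
# Orientations of complete multipartite graphs without directed 4-cycles

`Ori c r`: `r` orients the complete multipartite graph whose classes are the fibres of `c`, and there
is no directed 4-cycle `a → b → a' → b' → a` with `a, a'` in one class and `b, b'` in one class.
Main result (`Ori.count`): for three classes and `3 m ≤ |U|`, the number of vertices of `U` with
outdegree less than `m` plus the sum of `min (class size) m` is at least `3 m`.
-/

namespace KalaiRank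

open Finset

/-- `r` is an orientation of the complete multipartite graph with the classes of `c`, without
directed 4-cycles through two classes. -/
structure Ori {V κ : Type*} (c : V → κ) (r : V → V → Prop) : Prop where
  tot : ∀ a b, c a ≠ c b → r a b ∨ r b a
  asym : ∀ a b, r a b → ¬ r b a
  ne : ∀ a b, r a b → c a ≠ c b
  c4 : ∀ a a' b b', c a = c a' → c b = c b' → r a b → r b a' → r a' b' → ¬ r b' a

namespace FD

section

variable {V κ : Type*} [DecidableEq V] {c : V → κ} {r : V → V → Prop} [DecidableRel r]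

/-- The outdegree of `a` inside `U`. -/
def out (r : V → V → Prop) [DecidableRel r] (U : Finset V) (a : V) : ℕ := (U.filter (r a)).card

omit [DecidableEq V] in
theorem chain (h : Ori c r) {v v' : V} (hv : c v = c v') {Q : Finset V} {j : κ}
    (hQ : ∀ w ∈ Q, c w = j) (hj : j ≠ c v) :
    Q.filter (r v) ⊆ Q.filter (r v') ∨ Q.filter (r v') ⊆ Q.filter (r v) := by
  by_contra hcon
  rw [not_or, not_subset, not_subset] at hcon
  obtain ⟨⟨w, hw, hw'⟩, ⟨u, hu, hu'⟩⟩ := hcon
  rw [mem_filter] at hw hw' hu hu'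
  have h1 : ¬ r v' w := fun h => hw' ⟨hw.1, h⟩
  have h2 : ¬ r v u := fun h => hu' ⟨hu.1, h⟩
  have h3 : r w v' := (h.tot w v' (by rw [hQ w hw.1, ← hv]; exact hj)).resolve_right h1
  have h4 : r u v := (h.tot u v (by rw [hQ u hu.1]; exact hj)).resolve_right h2
  exact h.c4 v v' w u hv (by rw [hQ w hw.1, hQ u hu.1]) hw.2 h3 hu.2 h4

theorem exists_source (h : Ori c r) {Q : Finset V} (hne : Q.Nonempty) {i j : κ}
    (hc : ∀ w ∈ Q, c w = i ∨ c w = j) : ∃ a ∈ Q, ∀ b ∈ Q, ¬ r b a := by
  classical
  by_contra hcon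
  push Not at hcon
  obtain ⟨a0, ha0⟩ := hne
  obtain ⟨b0, hb0, hr0⟩ := hcon a0 ha0
  have hn0 := h.ne _ _ hr0
  have hex : (Q.filter (fun a => c a = i)).Nonempty := by
    rcases hc a0 ha0 with h1 | h1
    · exact ⟨a0, mem_filter.2 ⟨ha0, h1⟩⟩
    · rcases hc b0 hb0 with h2 | h2
      · exact ⟨b0, mem_filter.2 ⟨hb0, h2⟩⟩
      · exact absurd (h2.trans h1.symm) hn0
  obtain ⟨a, ha, hmax⟩ := exists_max_image (Q.filter (fun a => c a = i))
    (fun a => ((Q.filter (fun b => c b = j)).filter (r a)).card) hex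
  rw [mem_filter] at ha
  obtain ⟨b, hb, hba⟩ := hcon a ha.1
  have hbj : c b = j := by
    rcases hc b hb with h1 | h1
    · exact absurd (h1.trans ha.2.symm) (h.ne _ _ hba)
    · exact h1
  obtain ⟨a', ha', hab'⟩ := hcon b hb
  have hai' : c a' = i := by
    rcases hc a' ha' with h1 | h1
    · exact h1
    · exact absurd (h1.trans hbj.symm) (h.ne _ _ hab')
  have hij : j ≠ i := by
    rw [← hbj, ← ha.2]
    exact h.ne _ _ hba
  have h1 := hmax a' (mem_filter.2 ⟨ha', hai'⟩)
  have h2 : insert b ((Q.filter (fun b => c b = j)).filter (r a)) ⊆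
      (Q.filter (fun b => c b = j)).filter (r a') := by
    intro w hw
    rw [mem_insert] at hw
    rcases hw with rfl | hw
    · exact mem_filter.2 ⟨mem_filter.2 ⟨hb, hbj⟩, hab'⟩
    · rw [mem_filter, mem_filter] at hw
      refine mem_filter.2 ⟨mem_filter.2 hw.1, ?_⟩
      rcases h.tot a' w (by rw [hai', hw.1.2]; exact hij.symm) with h3 | h3
      · exact h3
      · exact absurd hba (h.c4 a a' w b (ha.2.trans hai'.symm) (hw.1.2.trans hbj.symm) hw.2 h3 hab')
  have h3 := card_le_card h2
  rw [card_insert_of_notMem] at h3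
  · omega
  · intro hcon
    rw [mem_filter] at hcon
    exact h.asym _ _ hcon.2 hba

theorem levels (h : Ori c r) {i j : κ} (n : ℕ) : ∀ Q : Finset V, Q.card = n →
    (∀ w ∈ Q, c w = i ∨ c w = j) → ∀ t ≤ n,
      t ≤ (Q.filter (fun w => out r Q w < t)).card := by
  induction n with
  | zero =>
    intro Q _ _ t ht
    omega
  | succ n ih =>
    intro Q hQ hc t ht
    rcases Nat.lt_or_ge n t with h1 | h1
    · have h2 : Q.filter (fun w => out r Q w < t) = Q := by
        rw [filter_eq_self]
        intro w hw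
        have h3 : Q.filter (r w) ⊆ Q.erase w := by
          intro u hu
          rw [mem_filter] at hu
          rw [mem_erase]
          refine ⟨?_, hu.1⟩
          rintro rfl
          exact h.ne _ _ hu.2 rfl
        have h4 := card_le_card h3
        rw [card_erase_of_mem hw] at h4
        unfold out
        omega
      rw [h2]
      omega
    · have hne : Q.Nonempty := by
        rw [← card_pos]
        omega
      obtain ⟨a, ha, hsrc⟩ := exists_source h hne hc
      have h2 := ih (Q.erase a) (by rw [card_erase_of_mem ha, hQ]; rfl)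
        (fun w hw => hc w (mem_of_mem_erase hw)) t h1
      refine h2.trans (card_le_card ?_)
      intro w hw
      rw [mem_filter] at hw
      have hwQ := mem_of_mem_erase hw.1
      refine mem_filter.2 ⟨hwQ, ?_⟩
      have h3 : Q.filter (r w) = (Q.erase a).filter (r w) := by
        ext u
        rw [mem_filter, mem_filter, mem_erase]
        constructor
        · rintro ⟨h4, h5⟩
          refine ⟨⟨?_, h4⟩, h5⟩
          rintro rfl
          exact hsrc w hwQ h5
        · rintro ⟨⟨_, h4⟩, h5⟩
          exact ⟨h4, h5⟩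
      have h4 := hw.2
      unfold out at h4 ⊢
      rw [h3]
      exact h4

omit [DecidableEq V] in
theorem exists_min_set (h : Ori c r) {S P : Finset V} (hS : S.Nonempty) {i j : κ} (hij : j ≠ i)
    (hSi : ∀ v ∈ S, c v = i) (hP : ∀ w ∈ P, c w = j) :
    ∃ v0 ∈ S, ∀ v ∈ S, P.filter (r v0) ⊆ P.filter (r v) := by
  obtain ⟨v0, hv0, hmin⟩ := exists_min_image S (fun v => (P.filter (r v)).card) hS
  refine ⟨v0, hv0, fun v hv => ?_⟩
  rcases chain h (v := v0) (v' := v) ((hSi v0 hv0).trans (hSi v hv).symm) hP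
    (by rw [hSi v0 hv0]; exact hij) with h1 | h1
  · exact h1
  · rw [eq_of_subset_of_card_le h1 (hmin v hv)]

variable [DecidableEq κ]

theorem out_le_of_class (h : Ori c r) (U : Finset V) {i j k : κ} {v : V} (hv : c v = i)
    (hcov : ∀ v ∈ U, c v = i ∨ c v = j ∨ c v = k) :
    out r U v ≤ ((U.filter (fun w => c w = j)).filter (r v)).card +
      (U.filter (fun w => c w = k)).card := by
  unfold out
  refine (card_le_card ?_).trans (card_union_le _ _)
  intro w hw
  rw [mem_filter] at hw
  rw [mem_union, mem_filter, mem_filter, mem_filter]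
  rcases hcov w hw.1 with h1 | h1 | h1
  · exact absurd (hv.trans h1.symm) (h.ne _ _ hw.2)
  · exact Or.inl ⟨⟨hw.1, h1⟩, hw.2⟩
  · exact Or.inr ⟨hw.1, h1⟩

/-- The bound of the outdegree of a vertex of class `j` dominated by `S`. -/
theorem out_le_aux (h : Ori c r) {U N S Q Qk : Finset V} {i j k : κ}
    (hcov : ∀ v ∈ U, c v = i ∨ c v = j ∨ c v = k) (hN : ∀ u ∈ U, c u = i → u ∈ N ∨ u ∈ S)
    {w : V} (hw : c w = j) (hwS : ∀ v ∈ S, r v w) (hQk : Qk ⊆ Q)
    (hQU : Qk ⊆ U.filter (fun v => c v = k)) :
    out r U w + Qk.card ≤ N.card + out r Q w + (U.filter (fun v => c v = k)).card := by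
  have h1 : U.filter (r w) ⊆ N ∪ Q.filter (r w) ∪ (U.filter (fun v => c v = k) \ Qk) := by
    intro u hu
    rw [mem_filter] at hu
    rw [mem_union, mem_union, mem_filter, mem_sdiff, mem_filter]
    rcases hcov u hu.1 with h1 | h1 | h1
    · rcases hN u hu.1 h1 with h2 | h2
      · exact Or.inl (Or.inl h2)
      · exact absurd hu.2 (h.asym _ _ (hwS u h2))
    · exact absurd (hw.trans h1.symm) (h.ne _ _ hu.2)
    · by_cases h2 : u ∈ Qk
      · exact Or.inl (Or.inr ⟨hQk h2, hu.2⟩)
      · exact Or.inr ⟨⟨hu.1, h1⟩, h2⟩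
  have h2 := card_le_card h1
  have h3 := card_union_le (N ∪ Q.filter (r w)) (U.filter (fun v => c v = k) \ Qk)
  have h4 := card_union_le N (Q.filter (r w))
  have h5 := card_sdiff_of_subset hQU
  have h6 := card_le_card hQU
  unfold out
  omega

theorem low (h : Ori c r) {U : Finset V} {m : ℕ} {i j k : κ} (hij : j ≠ i) (hik : k ≠ i)
    (hjk : j ≠ k) (hcov : ∀ v ∈ U, c v = i ∨ c v = j ∨ c v = k) (hn : 3 * m ≤ U.card)
    (hi : m ≤ (U.filter (fun v => c v = i)).card) :
    (m - (U.filter (fun v => c v = j)).card) + (m - (U.filter (fun v => c v = k)).card) ≤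
      (U.filter (fun v => out r U v < m)).card := by
  classical
  obtain ⟨Pi, hPi⟩ : ∃ P, P = U.filter (fun v => c v = i) := ⟨_, rfl⟩
  obtain ⟨Pj, hPj⟩ : ∃ P, P = U.filter (fun v => c v = j) := ⟨_, rfl⟩
  obtain ⟨Pk, hPk⟩ : ∃ P, P = U.filter (fun v => c v = k) := ⟨_, rfl⟩
  obtain ⟨L, hL⟩ : ∃ L, L = U.filter (fun v => out r U v < m) := ⟨_, rfl⟩
  obtain ⟨N, hN⟩ : ∃ N, N = Pi.filter (fun v => out r U v < m) := ⟨_, rfl⟩
  obtain ⟨S, hS⟩ : ∃ S, S = Pi.filter (fun v => ¬ out r U v < m) := ⟨_, rfl⟩
  rw [← hPi] at hi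
  rw [← hPj, ← hPk, ← hL]
  have mPi : ∀ v, v ∈ Pi ↔ v ∈ U ∧ c v = i := fun v => by rw [hPi, mem_filter]
  have mPj : ∀ v, v ∈ Pj ↔ v ∈ U ∧ c v = j := fun v => by rw [hPj, mem_filter]
  have mPk : ∀ v, v ∈ Pk ↔ v ∈ U ∧ c v = k := fun v => by rw [hPk, mem_filter]
  have mN : ∀ v, v ∈ N ↔ v ∈ Pi ∧ out r U v < m := fun v => by rw [hN, mem_filter]
  have mS : ∀ v, v ∈ S ↔ v ∈ Pi ∧ ¬ out r U v < m := fun v => by rw [hS, mem_filter]
  have hNS : N.card + S.card = Pi.card := by
    rw [hN, hS]
    exact card_filter_add_card_filter_not _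
  have hsum : U.card = Pi.card + Pj.card + Pk.card := by
    have e1 : U = Pi ∪ Pj ∪ Pk := by
      ext v
      rw [mem_union, mem_union, mPi, mPj, mPk]
      constructor
      · intro hv
        rcases hcov v hv with h1 | h1 | h1
        · exact Or.inl (Or.inl ⟨hv, h1⟩)
        · exact Or.inl (Or.inr ⟨hv, h1⟩)
        · exact Or.inr ⟨hv, h1⟩
      · rintro ((h1 | h1) | h1) <;> exact h1.1
    have d1 : Disjoint Pi Pj := by
      rw [disjoint_left]
      intro v h1 h2
      rw [mPi] at h1
      rw [mPj] at h2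
      exact hij (h2.2.symm.trans h1.2)
    have d2 : Disjoint (Pi ∪ Pj) Pk := by
      rw [disjoint_left]
      intro v h1 h2
      rw [mem_union, mPi, mPj] at h1
      rw [mPk] at h2
      rcases h1 with h1 | h1
      · exact hik (h2.2.symm.trans h1.2)
      · exact hjk (h1.2.symm.trans h2.2)
    rw [e1, card_union_of_disjoint d2, card_union_of_disjoint d1]
  have hNL : N ⊆ L := by
    intro v hv
    rw [mN, mPi] at hv
    rw [hL, mem_filter]
    exact ⟨hv.1.1, hv.2⟩
  have hNLc := card_le_card hNL
  rcases S.eq_empty_or_nonempty with hS0 | hSne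
  · rw [hS0, card_empty] at hNS
    omega
  · have hSi : ∀ v ∈ S, c v = i := fun v hv => ((mPi v).1 ((mS v).1 hv).1).2
    -- the dominated parts of the classes `j`, `k`
    obtain ⟨vj, hvj, hminj⟩ := exists_min_set h hSne hij hSi (P := Pj) (fun w hw => ((mPj w).1 hw).2)
    obtain ⟨vk, hvk, hmink⟩ := exists_min_set h hSne hik hSi (P := Pk) (fun w hw => ((mPk w).1 hw).2)
    have hcj : m - Pk.card ≤ (Pj.filter (r vj)).card := by
      have h1 := out_le_of_class h U (hSi vj hvj) hcov
      have h2 := ((mS vj).1 hvj).2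
      rw [← hPj, ← hPk] at h1
      omega
    have hck : m - Pj.card ≤ (Pk.filter (r vk)).card := by
      have h1 := out_le_of_class h U (hSi vk hvk) (j := k) (k := j)
        (fun v hv => by rcases hcov v hv with h1 | h1 | h1 <;> tauto)
      have h2 := ((mS vk).1 hvk).2
      rw [← hPj, ← hPk] at h1
      omega
    obtain ⟨Qj, hQj, hQjc⟩ := exists_subset_card_eq hcj
    obtain ⟨Qk, hQk, hQkc⟩ := exists_subset_card_eq hck
    have hQjP : Qj ⊆ Pj := hQj.trans (filter_subset _ _)
    have hQkP : Qk ⊆ Pk := hQk.trans (filter_subset _ _)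
    have hdis : Disjoint Qj Qk := by
      rw [disjoint_left]
      intro v h1 h2
      have h3 := (mPj v).1 (hQjP h1)
      have h4 := (mPk v).1 (hQkP h2)
      exact hjk (h3.2.symm.trans h4.2)
    have hQc : (Qj ∪ Qk).card = (m - Pk.card) + (m - Pj.card) := by
      rw [card_union_of_disjoint hdis, hQjc, hQkc]
    rcases Nat.lt_or_ge N.card ((m - Pk.card) + (m - Pj.card)) with hlt | hge
    · obtain ⟨t, ht⟩ : ∃ t, t = (m - Pk.card) + (m - Pj.card) - N.card := ⟨_, rfl⟩
      have hlev := levels h (i := j) (j := k) (Qj ∪ Qk).card (Qj ∪ Qk) rfl (fun w hw => by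
        rcases mem_union.1 hw with h1 | h1
        · exact Or.inl ((mPj w).1 (hQjP h1)).2
        · exact Or.inr ((mPk w).1 (hQkP h1)).2) t (by omega)
      have hNcov : ∀ u ∈ U, c u = i → u ∈ N ∨ u ∈ S := by
        intro u hu hui
        rw [mN, mS, mPi]
        by_cases h1 : out r U u < m
        · exact Or.inl ⟨⟨hu, hui⟩, h1⟩
        · exact Or.inr ⟨⟨hu, hui⟩, h1⟩
      have hR : (Qj ∪ Qk).filter (fun w => out r (Qj ∪ Qk) w < t) ⊆ L := by
        intro w hw
        rw [mem_filter] at hw
        rw [hL, mem_filter]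
        rcases mem_union.1 hw.1 with h1 | h1
        · have hwj := (mPj w).1 (hQjP h1)
          refine ⟨hwj.1, ?_⟩
          have h2 := out_le_aux h hcov hNcov hwj.2 (fun v hv =>
            (mem_filter.1 (hminj v hv (hQj h1))).2) (Q := Qj ∪ Qk) (Qk := Qk) subset_union_right
            (by rw [← hPk]; exact hQkP)
          have h3 : 0 < Qj.card := card_pos.2 ⟨w, h1⟩
          rw [← hPk] at h2
          omega
        · have hwk := (mPk w).1 (hQkP h1)
          refine ⟨hwk.1, ?_⟩
          have h2 := out_le_aux h (j := k) (k := j)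
            (fun v hv => by rcases hcov v hv with h1 | h1 | h1 <;> tauto) hNcov hwk.2 (fun v hv =>
            (mem_filter.1 (hmink v hv (hQk h1))).2) (Q := Qj ∪ Qk) (Qk := Qj) subset_union_left
            (by rw [← hPj]; exact hQjP)
          have h3 : 0 < Qk.card := card_pos.2 ⟨w, h1⟩
          rw [← hPj] at h2
          omega
      have hdis2 : Disjoint N ((Qj ∪ Qk).filter (fun w => out r (Qj ∪ Qk) w < t)) := by
        rw [disjoint_left]
        intro v h1 h2
        have h3 := ((mPi v).1 ((mN v).1 h1).1).2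
        rcases mem_union.1 (mem_filter.1 h2).1 with h4 | h4
        · exact hij (((mPj v).1 (hQjP h4)).2.symm.trans h3)
        · exact hik (((mPk v).1 (hQkP h4)).2.symm.trans h3)
      have h5 := card_le_card (union_subset hNL hR)
      rw [card_union_of_disjoint hdis2] at h5
      omega
    · omega

end

/-- The main count. -/
theorem count {V : Type*} [DecidableEq V] {c : V → Fin 3} {r : V → V → Prop} [DecidableRel r]
    (h : Ori c r) (U : Finset V) (m : ℕ) (hn : 3 * m ≤ U.card) :
    3 * m ≤ (U.filter (fun v => out r U v < m)).card +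
      ∑ i : Fin 3, min (U.filter (fun v => c v = i)).card m := by
  have hcov : ∀ v ∈ U, c v = 0 ∨ c v = 1 ∨ c v = 2 := by
    intro v _
    generalize c v = x
    fin_cases x <;> simp
  have hsum : U.card = (U.filter (fun v => c v = 0)).card + (U.filter (fun v => c v = 1)).card +
      (U.filter (fun v => c v = 2)).card := by
    have h1 := card_eq_sum_card_fiberwise (f := c) (s := U) (t := univ) (fun _ _ => mem_univ _)
    rw [Fin.sum_univ_three] at h1
    exact h1
  rw [Fin.sum_univ_three]
  have key : (m - (U.filter (fun v => c v = 0)).card) + (m - (U.filter (fun v => c v = 1)).card) +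
      (m - (U.filter (fun v => c v = 2)).card) ≤ (U.filter (fun v => out r U v < m)).card := by
    rcases Nat.lt_or_ge (U.filter (fun v => c v = 0)).card m with h0 | h0
    · rcases Nat.lt_or_ge (U.filter (fun v => c v = 1)).card m with h1 | h1
      · have h2 : m ≤ (U.filter (fun v => c v = 2)).card := by omega
        have h3 := low h (i := 2) (j := 0) (k := 1) (by decide) (by decide) (by decide)
          (fun v hv => by rcases hcov v hv with h | h | h <;> tauto) hn h2
        omega
      · have h3 := low h (i := 1) (j := 0) (k := 2) (by decide) (by decide) (by decide)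
          (fun v hv => by rcases hcov v hv with h | h | h <;> tauto) hn h1
        omega
    · have h3 := low h (i := 0) (j := 1) (k := 2) (by decide) (by decide) (by decide)
          (fun v hv => by rcases hcov v hv with h | h | h <;> tauto) hn h0
      omega
  omega

end FD

end KalaiRank
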